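import Mathlib

set_option autoImplicit false

namespace Pool.Agent.Results.MP_adbd0c_co.Nine

/-- `L` is the Cayley table of a quasigroup on `S` -/
def IsQuasigroup {S : Type} (L : S → S → S) : Prop :=
  (∀ a b, ∃! x, L a x = b) ∧ (∀ a b, ∃! y, L y a = b)

/-- `L` is isotopic to a group -/
def IsotopicToGroup {S : Type} (L : S → S → S) : Prop :=
  ∃ (G : Type) (_ : Group G) (α β γ : S ≃ G), ∀ x y, γ (L x y) = α x * β y

/-- the pairs `(L x y, L' x y)` are pairwise distinct -/
def Orthogonal {S : Type} (L L' : S → S → S) : Prop :=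
  Function.Injective (fun p : S × S => (L p.1 p.2, L' p.1 p.2))

/-- the eight squares, as one number in base 9 -/
def code : ℕ := 1791849346904542532692841139660604126405487063241906861832391557542405981837422097990806822340824617374920800480438288735412924751041102556217977124157167238185564415892661418479486494802172869011063326808855893914678062526508648759506339679926743816836853498130839424393617203133116148134928052726411904447888389779428633811671557344181201528221594867494919489422470843983542745409345010216756410839997494402173222601485546217766548897959543549022530881996480119744977032844370589236136709415287819235534100630942218184650422679292909696623713079362554995529973715516294050078835166038480464316883472455377043967018912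

/-- the eight squares -/
def Q (k : Fin 8) (x y : Fin 9) : Fin 9 :=
  ⟨code / 9 ^ (81 * k.val + 9 * x.val + y.val) % 9, Nat.mod_lt _ (by norm_num)⟩

/-- violations of the quadrangle criterion -/
def W : Fin 8 → Fin 8 → Fin 9 :=
  ![![0, 1, 0, 1, 1, 7, 1, 3],
      ![0, 1, 0, 1, 1, 4, 6, 8],
      ![0, 1, 0, 1, 3, 7, 5, 0],
      ![0, 1, 0, 1, 1, 6, 8, 6],
      ![0, 1, 0, 1, 1, 6, 5, 0],
      ![0, 1, 0, 1, 1, 6, 3, 2],
      ![0, 1, 0, 1, 1, 0, 4, 7],
      ![0, 1, 0, 1, 1, 8, 7, 4]]

theorem rows_ok : ∀ k a, Function.Bijective (Q k a) := by decide +kernel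

theorem cols_ok : ∀ k a, Function.Bijective (fun y => Q k y a) := by decide +kernel

theorem orth_ok : ∀ k l, k < l →
    (((List.finRange 9).flatMap (fun x => (List.finRange 9).map
      (fun y => 9 * (Q k x y).val + (Q l x y).val))).foldl (fun m v => m ||| 2 ^ v) 0
        = 2 ^ 81 - 1) := by decide +kernel

theorem quad_ok : ∀ k, Q k (W k 0) (W k 2) = Q k (W k 4) (W k 6) ∧
    Q k (W k 0) (W k 3) = Q k (W k 4) (W k 7) ∧ Q k (W k 1) (W k 2) = Q k (W k 5) (W k 6) ∧
    Q k (W k 1) (W k 3) ≠ Q k (W k 5) (W k 7) := by decide +kernel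

theorem fold_bit (l : List ℕ) (m i : ℕ) (h : (l.foldl (fun m v => m ||| 2 ^ v) m).testBit i = true) :
    m.testBit i = true ∨ i ∈ l := by
  induction l generalizing m with
  | nil => exact Or.inl h
  | cons a l ih =>
    rcases ih _ h with h1 | h1
    · rw [Nat.testBit_or, Bool.or_eq_true, Nat.testBit_two_pow] at h1
      rcases h1 with h1 | h1
      · exact Or.inl h1
      · right
        have : a = i := by simpa using h1
        simp [this]
    · exact Or.inr (List.mem_cons_of_mem _ h1)

theorem orth_lt (k l : Fin 8) (h : k < l) : Orthogonal (Q k) (Q l) := by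
  apply Finite.injective_iff_surjective.mpr
  rintro ⟨a, b⟩
  have h1 := fold_bit _ 0 (9 * a.val + b.val) (by
    rw [orth_ok k l h, Nat.testBit_two_pow_sub_one]
    have := a.2
    have := b.2
    simp only [decide_eq_true_eq]
    omega)
  simp only [Nat.zero_testBit, Bool.false_eq_true, false_or, List.mem_flatMap, List.mem_map] at h1
  obtain ⟨x, _, y, _, e⟩ := h1
  refine ⟨(x, y), ?_⟩
  have h2 := (Q l x y).2
  have h3 := b.2
  simp only [Prod.mk.injEq]
  constructor <;> apply Fin.ext <;> omega

theorem result : ∃ (n : ℕ) (L : Fin (n - 1) → Fin n → Fin n → Fin n), n = 9 ∧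
    (∀ k, IsQuasigroup (L k)) ∧ (∀ k, ¬ IsotopicToGroup (L k)) ∧
    ∀ k l, k ≠ l → Orthogonal (L k) (L l) := by
  refine ⟨9, Q, rfl, fun k => ⟨fun a b => (rows_ok k a).existsUnique b,
    fun a b => (cols_ok k a).existsUnique b⟩, ?_, ?_⟩
  · rintro k ⟨G, _, α, β, γ, h⟩
    obtain ⟨h1, h2, h3, h4⟩ := quad_ok k
    apply h4
    apply γ.injective
    have e1 := congrArg γ h1
    have e2 := congrArg γ h2
    have e3 := congrArg γ h3
    rw [h, h] at e1 e2 e3 ⊢
    calc α (W k 1) * β (W k 3)
        = (α (W k 1) * β (W k 2)) * (α (W k 0) * β (W k 2))⁻¹ * (α (W k 0) * β (W k 3)) := by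
          group
      _ = α (W k 5) * β (W k 7) := by rw [e1, e2, e3]; group
  · intro k l hkl
    rcases lt_or_gt_of_ne hkl with h | h
    · exact orth_lt k l h
    · intro p q e
      apply orth_lt l k h
      simp only [Prod.mk.injEq] at e ⊢
      exact ⟨e.2, e.1⟩

end Pool.Agent.Results.MP_adbd0c_co.Nine
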